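import Pool.Agent.Y271.TI.Final

/-!
# A separable nuclear stably finite C*-algebra which is not locally approximable by type I
C*-algebras
-/

set_option autoImplicit false

namespace Pool.Agent.Results.MP_b9f29c_an.ConeCounterexample

open Pool.Agent.W658.TypeI

/-- There is a unital, separable, nuclear, stably finite C*-algebra which is not locally
approximable by type I C*-subalgebras. -/
theorem result : ∃ (A : Type) (_ : CStarAlgebra A) (_ : PartialOrder A) (_ : StarOrderedRing A),
    TopologicalSpace.SeparableSpace A ∧ IsNuclear A ∧ IsStablyFinite A ∧ ¬ LocallyTypeI A :=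
  ⟨Pool.Agent.W658.Cone.CA, inferInstance, inferInstance, inferInstance,
    Pool.Agent.W658.Cone.separable_CA, Pool.Agent.W658.Cone.nuclear_CA,
    Pool.Agent.Y271.TI.stablyFinite_CA, Pool.Agent.Y271.TI.not_locallyTypeI_CA⟩

end Pool.Agent.Results.MP_b9f29c_an.ConeCounterexample
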